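import Pool.Agent.Y803.FD.All

/-!
# MP_8cc108_ag, Q1: the dimension bound for `G(α; n, L, k)` fails on every hyperelliptic curve of genus `≥ 24`

Let `C` be the hyperelliptic curve `y² = ∏_{a ∈ s} (x - a)` of genus `g ≥ 24`, `|s| = 2 g + 2`, with
hyperelliptic line bundle `H`, and let `L = 6H`, so `deg L = 12` and `h¹(L) = g - 6`. Any two `12`-stable
coherent systems `(E, V)` of type `(3, 12, 8)` are isomorphic, one exists, and it has `det E ≅ L`; it is
generically generated. Hence `G(12; 3, L, 8)` has local dimension `0` at its only point, although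
`β(3, 12, 8) - g + h¹(L) * (8 choose 3) = 40 g - 288` is positive, and not bounded in terms of `n, d, k`.

The starting result `FixedDetBound` is the curve `y² = x^50 + 1` of genus `24`.
All definitions are in `Pool/Agent/Helper395/CS/Defs.lean`.
-/

namespace Pool.Agent.Results.MP_8cc108_ag.FixedDetBoundHyperelliptic

open Pool.Agent.Helper395.CS Pool.Agent.Y803.FD

/-- `K` is the function field `ℂ(x, y)` of the curve `y² = ∏_{a ∈ s} (x - a)` -/
def IsFunctionField (K : Type) [Field K] [Algebra ℂ K] (s : Finset ℂ) : Prop :=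
  ∃ x y : K, Transcendental ℂ x ∧ y ^ 2 = ∏ a ∈ s, (x - algebraMap ℂ K a) ∧
    IntermediateField.adjoin ℂ {x, y} = ⊤

theorem result (g : ℕ) (hg : 24 ≤ g) (s : Finset ℂ) (hs : s.card = 2 * g + 2) :
    (∃ (K : Type) (_ : Field K) (_ : Algebra ℂ K), IsFunctionField K s) ∧
    ∀ (K : Type) [Field K] [Algebra ℂ K], IsFunctionField K s → IsCurve K ∧ genus K = g ∧
      ∃ L : LineBundle K, L.degree = 12 ∧ L.hOne = g - 6 ∧ expectedBound 3 8 L = 40 * g - 288 ∧
        (∃ S : CoherentSystem K 3 L.degree 8,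
          S.IsStable 12 ∧ S.bundle.det.Iso L ∧ S.IsGenericallyGenerated) ∧
        (∀ S T : CoherentSystem K 3 L.degree 8, S.IsStable 12 → T.IsStable 12 → S.Iso T) ∧
        Nonempty (ModuliSpace 3 8 L 12) ∧
        ∀ (M : ModuliSpace 3 8 L 12)
          (S : {S : CoherentSystem K 3 L.degree 8 // S.IsStable 12 ∧ S.bundle.det.Iso L}),
          localDim M.X (M.pt S) = 0 := by
  obtain ⟨b, rfl⟩ : ∃ b, g = b + 7 := ⟨g - 7, by omega⟩
  have R : Rev (fs s) (fs' s) b := revs s (by omega)
  have hf : 48 < (fs s).natDegree := by rw [R.deg]; omega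
  have hirr : Fact (Irreducible (Pf (fs s))) := ⟨Pf_irreducible (fs_sep s) (by omega)⟩
  refine ⟨⟨Kf (fs s), inferInstance, inferInstance, xf (fs s), yf (fs s), xf_transcendental (fs s),
    (yf_sq (fs s)).trans (aeval_fs s _), adjoinf (fs s)⟩, ?_⟩
  rintro K _ _ ⟨x, y, hx, hy, hxy⟩
  have H := hyp_all (fs_sep s) hx (hy.trans (aeval_fs s x).symm) hxy
  have hd : (lineH H.curve H.x_ne 6).degree = 12 := by
    rw [degree_lineH H R]
    norm_num
  have hiso : ∀ S T : CoherentSystem K 3 (lineH H.curve H.x_ne 6).degree 8,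
      S.IsStable 12 → T.IsStable 12 → S.Iso T :=
    fun S T hS hT => iso_of_stable H hf hd S T hS hT
  obtain ⟨S, hS, hSb, hSg⟩ := exists_stable H hf hd
  have hS' : S.bundle.det.Iso (lineH H.curve H.x_ne 6) := by
    rw [hSb]
    exact Pool.Agent.Y803.FD.det_std H R
  have hg7 : genus K = b + 7 := genus_eq H R
  have h1 : (lineH H.curve H.x_ne 6).hOne = b + 7 - 6 := by
    rw [hOne_eq H R]
    omega
  have hb : expectedBound 3 8 (lineH H.curve H.x_ne 6) = 40 * (b + 7 : ℕ) - 288 := by
    rw [bound_eq H R]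
    push_cast
    ring
  exact ⟨H.curve, hg7, lineH H.curve H.x_ne 6, hd, h1, hb, ⟨S, hS, hS', hSg⟩, hiso,
    exists_moduliSpace hiso S hS hS', fun M S => M.localDim_eq_zero hiso S⟩

end Pool.Agent.Results.MP_8cc108_ag.FixedDetBoundHyperelliptic
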